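import Pool.Agent.TH476.KStm

set_option autoImplicit false

open Classical

namespace Pool.Agent.TH422.KK

open Pool.Agent.TH476 Pool.Agent.TH476.KK

section basic

variable {V : Type}

/-- rich paths of length 3, written out -/
def A3 (G : SimpleGraph V) (B : ℕ → V → V → Prop) (a b c d : V) : Prop :=
  G.Adj a b ∧ G.Adj b c ∧ G.Adj c d ∧ a ≠ c ∧ a ≠ d ∧ b ≠ d ∧ ¬ B 2 a c ∧ ¬ B 2 b d ∧ B 3 a d

lemma pthV3 (G : SimpleGraph V) (B : ℕ → V → V → Prop) (p : ℕ → V) :
    PthV G B 3 p ↔ G.Adj (p 0) (p 1) ∧ G.Adj (p 1) (p 2) ∧ G.Adj (p 2) (p 3) ∧ p 0 ≠ p 2 ∧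
      p 0 ≠ p 3 ∧ p 1 ≠ p 3 ∧ ¬ B 2 (p 0) (p 2) ∧ ¬ B 2 (p 1) (p 3) := by
  constructor
  · rintro ⟨h1, h2, h3⟩
    refine ⟨h1 0 (by omega), h1 1 (by omega), h1 2 (by omega), fun h => ?_, fun h => ?_,
      fun h => ?_, ?_, ?_⟩
    · exact absurd (h2 0 2 (by omega) (by omega) h) (by omega)
    · exact absurd (h2 0 3 (by omega) (by omega) h) (by omega)
    · exact absurd (h2 1 3 (by omega) (by omega) h) (by omega)
    · exact h3 0 2 (by omega) (by omega) (by omega) (by omega)
    · exact h3 1 3 (by omega) (by omega) (by omega) (by omega)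
  · rintro ⟨h01, h12, h23, h02, h03, h13, b02, b13⟩
    have n01 := h01.ne
    have n12 := h12.ne
    have n23 := h23.ne
    refine ⟨?_, ?_, ?_⟩
    · intro i hi
      interval_cases i
      · exact h01
      · exact h12
      · exact h23
    · have key : ∀ i i', i < i' → i' ≤ 3 → p i ≠ p i' := by
        intro i i' h1 h2
        interval_cases i' <;> interval_cases i <;> assumption
      intro i i' hi hi' h
      rcases lt_trichotomy i i' with h1 | h1 | h1
      · exact absurd h (key i i' h1 hi')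
      · exact h1
      · exact absurd h.symm (key i' i h1 hi)
    · intro a b hab hb h1 h2
      have : b = a + 2 := by omega
      subst this
      have : a = 0 ∨ a = 1 := by omega
      rcases this with rfl | rfl
      · exact b02
      · exact b13

lemma mem_RCs3 [Fintype V] (G : SimpleGraph V) (B : ℕ → V → V → Prop) (p : Fin (3 + 1) → V) :
    p ∈ RCs G B 3 ↔ A3 G B (p 0) (p 1) (p 2) (p 3) := by
  unfold RCs A3
  rw [Finset.mem_filter, pthV3]
  have e0 : ex 3 p 0 = p 0 := rfl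
  have e1 : ex 3 p 1 = p 1 := rfl
  have e2 : ex 3 p 2 = p 2 := rfl
  have e3 : ex 3 p 3 = p 3 := rfl
  rw [e0, e1, e2, e3]
  simp only [Finset.mem_univ, true_and, and_assoc]

/-- one of many internally disjoint paths avoids a small set -/
lemma avoid (G : SimpleGraph V) (B : ℕ → V → V → Prop) (j M : ℕ) (x y : V)
    (h : Disj G B j M x y) (Y : Finset V) (hY : Y.card < M) :
    ∃ p : ℕ → V, p 0 = x ∧ p j = y ∧ PthV G B j p ∧ ∀ i, 1 ≤ i → i < j → p i ∉ Y := by
  obtain ⟨P, h1, h2⟩ := h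
  by_contra hcon
  push Not at hcon
  have h3 : ∀ l, ∃ i, 1 ≤ i ∧ i < j ∧ P l i ∈ Y := fun l =>
    hcon (P l) (h1 l).1 (h1 l).2.1 (h1 l).2.2
  choose f hf1 hf2 hf3 using h3
  have h4 : (Finset.univ : Finset (Fin M)).card ≤ Y.card := by
    refine Finset.card_le_card_of_injOn (fun l => P l (f l)) (fun l _ => hf3 l) ?_
    intro l _ l' _ he
    by_contra hne
    exact h2 l l' (f l) (f l') hne (hf1 l) (hf2 l) (hf1 l') (hf2 l') he
  rw [Finset.card_univ, Fintype.card_fin] at h4
  omega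

/-- greedy choice of disjoint paths starting in S' -/
lemma greedy (m : ℕ) (S' Y0 : Finset V) (Pr : (ℕ → V) → Prop) (y0 : ℕ)
    (h : ∀ s ∈ S', ∀ Y : Finset V, Y0 ⊆ Y → Y.card ≤ y0 → ∃ P : ℕ → V, P 0 = s ∧ Pr P ∧
      (∀ i, 1 ≤ i → i ≤ m → P i ∉ Y) ∧ ∀ i i', i ≤ m → i' ≤ m → P i = P i' → i = i')
    (hS : S' ⊆ Y0) (n' : ℕ) (hn : n' ≤ S'.card) (hy : Y0.card + n' * m ≤ y0) :
    ∃ P : Fin n' → ℕ → V, (∀ l, P l 0 ∈ S' ∧ Pr (P l) ∧ ∀ i, 1 ≤ i → i ≤ m → P l i ∉ Y0) ∧
      ∀ l l' i i', i ≤ m → i' ≤ m → P l i = P l' i' → l = l' ∧ i = i' := by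
  have key : ∀ T : Finset V, T ⊆ S' → Y0.card + T.card * m ≤ y0 → ∃ P : V → ℕ → V,
      (∀ s ∈ T, P s 0 = s ∧ Pr (P s) ∧ ∀ i, 1 ≤ i → i ≤ m → P s i ∉ Y0) ∧
      ∀ s ∈ T, ∀ s' ∈ T, ∀ i i', i ≤ m → i' ≤ m → P s i = P s' i' → s = s' ∧ i = i' := by
    intro T
    induction T using Finset.induction_on with
    | empty =>
      intro _ _
      exact ⟨fun s _ => s, fun s hs => absurd hs (Finset.notMem_empty _),
        fun s hs => absurd hs (Finset.notMem_empty _)⟩
    | insert t T ht ih =>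
      intro hT hc
      rw [Finset.card_insert_of_notMem ht] at hc
      obtain ⟨P, hP1, hP2⟩ := ih ((Finset.subset_insert _ _).trans hT) (by nlinarith)
      obtain ⟨W, hW⟩ : ∃ W, W = T.biUnion (fun s => (Finset.range m).image (fun i => P s (i + 1))) :=
        ⟨_, rfl⟩
      have hWc : W.card ≤ T.card * m := by
        rw [hW]
        refine Finset.card_biUnion_le_card_mul _ _ _ fun s _ => ?_
        exact Finset.card_image_le.trans (by rw [Finset.card_range])
      have hWm : ∀ s ∈ T, ∀ i, 1 ≤ i → i ≤ m → P s i ∈ W := by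
        intro s hs i h1 h2
        rw [hW]
        refine Finset.mem_biUnion.mpr ⟨s, hs, Finset.mem_image.mpr ⟨i - 1, ?_, ?_⟩⟩
        · rw [Finset.mem_range]
          omega
        · rw [Nat.sub_add_cancel h1]
      have htS : t ∈ S' := hT (Finset.mem_insert_self _ _)
      obtain ⟨p, hp0, hp1, hp2, hp3⟩ := h t htS (Y0 ∪ W) Finset.subset_union_left (by
        refine (Finset.card_union_le _ _).trans ?_
        nlinarith)
      have hsplit : ∀ i, 1 ≤ i → i ≤ m → p i ∉ Y0 ∧ p i ∉ W := fun i h1 h2 => by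
        have := hp2 i h1 h2
        rw [Finset.mem_union, not_or] at this
        exact this
      have hdis : ∀ s ∈ T, ∀ i i', i ≤ m → i' ≤ m → P s i ≠ p i' := by
        intro s hs i i' hi hi' he
        obtain ⟨q1, q2, q3⟩ := hP1 s hs
        rcases Nat.eq_zero_or_pos i' with h0 | h0
        · subst h0
          rw [hp0] at he
          rcases Nat.eq_zero_or_pos i with h0' | h0'
          · subst h0'
            rw [q1] at he
            exact ht (he ▸ hs)
          · exact q3 i h0' hi (he ▸ hS htS)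
        · rcases Nat.eq_zero_or_pos i with h0' | h0'
          · subst h0'
            rw [q1] at he
            refine (hsplit i' h0 hi').1 (he ▸ hS ?_)
            exact hT (Finset.mem_insert_of_mem hs)
          · exact (hsplit i' h0 hi').2 (he ▸ hWm s hs i h0' hi)
      refine ⟨Function.update P t p, ?_, ?_⟩
      · intro s hs
        by_cases hst : s = t
        · subst hst
          rw [Function.update_self]
          exact ⟨hp0, hp1, fun i h1 h2 => (hsplit i h1 h2).1⟩
        · rw [Function.update_of_ne hst]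
          exact hP1 s ((Finset.mem_insert.mp hs).resolve_left hst)
      · intro s hs s' hs' i i' hi hi' he
        by_cases hst : s = t
        · by_cases hst' : s' = t
          · subst hst
            subst hst'
            rw [Function.update_self] at he
            exact ⟨rfl, hp3 i i' hi hi' he⟩
          · subst hst
            rw [Function.update_self, Function.update_of_ne hst'] at he
            exact absurd he.symm
              (hdis s' ((Finset.mem_insert.mp hs').resolve_left hst') i' i hi' hi)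
        · by_cases hst' : s' = t
          · subst hst'
            rw [Function.update_self, Function.update_of_ne hst] at he
            exact absurd he (hdis s ((Finset.mem_insert.mp hs).resolve_left hst) i i' hi hi')
          · rw [Function.update_of_ne hst, Function.update_of_ne hst'] at he
            exact hP2 s ((Finset.mem_insert.mp hs).resolve_left hst) s'
              ((Finset.mem_insert.mp hs').resolve_left hst') i i' hi hi' he
  obtain ⟨T, hT1, hT2⟩ := Finset.exists_subset_card_eq hn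
  obtain ⟨P, hP1, hP2⟩ := key T hT1 (by rw [hT2]; exact hy)
  subst hT2
  refine ⟨fun l => P (T.equivFin.symm l).1, fun l => ?_, fun l l' i i' hi hi' he => ?_⟩
  · obtain ⟨h1, h2, h3⟩ := hP1 _ (T.equivFin.symm l).2
    refine ⟨?_, h2, h3⟩
    show P (T.equivFin.symm l).1 0 ∈ S'
    rw [h1]
    exact hT1 (T.equivFin.symm l).2
  · obtain ⟨h1, h2⟩ := hP2 _ (T.equivFin.symm l).2 _ (T.equivFin.symm l').2 i i' hi hi' he
    exact ⟨T.equivFin.symm.injective (Subtype.ext h1), h2⟩

/-- a common element for many s -/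
lemma common {α β : Type} (S : Finset α) (X Y : Finset β) (R : α → β → Prop) (D K c y : ℕ)
    (h1 : ∀ s ∈ S, D ≤ c * (X.filter (fun x => R s x)).card) (h2 : X.card ≤ K * D)
    (h3 : Y.card ≤ y) (h4 : 2 * c * y < D) (hK : 0 < K) (hS : S.Nonempty) :
    ∃ x ∈ X, x ∉ Y ∧ S.card ≤ 2 * c * K * (S.filter (fun s => R s x)).card := by
  by_contra hcon
  push Not at hcon
  have hSp := hS.card_pos
  have e1 : ∑ s ∈ S, (X.filter (fun x => R s x)).card =
      ∑ x ∈ X, (S.filter (fun s => R s x)).card := by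
    simp only [Finset.card_filter]
    exact Finset.sum_comm
  have e2 : S.card * D ≤ c * ∑ x ∈ X, (S.filter (fun s => R s x)).card := by
    rw [← e1, Finset.mul_sum]
    calc S.card * D = ∑ _s ∈ S, D := by rw [Finset.sum_const, smul_eq_mul]
      _ ≤ _ := Finset.sum_le_sum h1
  have e3 : ∀ x ∈ X, 2 * c * K * (S.filter (fun s => R s x)).card ≤
      S.card + if x ∈ Y then 2 * c * K * S.card else 0 := by
    intro x hx
    by_cases hxY : x ∈ Y
    · rw [if_pos hxY]
      have : (S.filter (fun s => R s x)).card ≤ S.card := Finset.card_filter_le _ _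
      have := Nat.mul_le_mul_left (2 * c * K) this
      omega
    · rw [if_neg hxY]
      have := hcon x hx hxY
      omega
  have e4 : 2 * c * K * ∑ x ∈ X, (S.filter (fun s => R s x)).card ≤
      X.card * S.card + y * (2 * c * K * S.card) := by
    rw [Finset.mul_sum]
    refine (Finset.sum_le_sum e3).trans ?_
    rw [Finset.sum_add_distrib, Finset.sum_const, smul_eq_mul]
    refine Nat.add_le_add_left ?_ _
    rw [← Finset.sum_filter, Finset.sum_const, smul_eq_mul]
    refine Nat.mul_le_mul_right _ (le_trans ?_ h3)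
    exact Finset.card_le_card fun x hx => (Finset.mem_filter.mp hx).2
  have e5 : 2 * K * (S.card * D) ≤ K * D * S.card + y * (2 * c * K * S.card) := by
    calc 2 * K * (S.card * D) ≤ 2 * K * (c * ∑ x ∈ X, (S.filter (fun s => R s x)).card) :=
          Nat.mul_le_mul_left _ e2
      _ = 2 * c * K * ∑ x ∈ X, (S.filter (fun s => R s x)).card := by ring
      _ ≤ _ := e4
      _ ≤ _ := Nat.add_le_add_right (Nat.mul_le_mul_right _ h2) _
  have e6 : K * S.card * D ≤ K * S.card * (2 * c * y) := by nlinarith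
  have e7 := Nat.le_of_mul_le_mul_left e6 (Nat.mul_pos hK hSp)
  omega

end basic

section levels

variable {V : Type} [Fintype V]

/-- the levels -/
noncomputable def Lv (G : SimpleGraph V) (B : ℕ → V → V → Prop) (D q1 : ℕ) : ℕ → Finset (V × V)
  | 0 => Finset.univ.filter (fun e => G.Adj e.1 e.2)
  | j + 1 => (Lv G B D q1 j).filter (fun e =>
      D ^ 2 ≤ q1 * ((Lv G B D q1 j).filter (fun f => A3 G B e.1 e.2 f.1 f.2)).card)

variable (G : SimpleGraph V) (B : ℕ → V → V → Prop) (D K q1 : ℕ)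

lemma mem_Lv0 (e : V × V) : e ∈ Lv G B D q1 0 ↔ G.Adj e.1 e.2 := by
  rw [Lv, Finset.mem_filter]
  exact ⟨fun h => h.2, fun h => ⟨Finset.mem_univ _, h⟩⟩

lemma mem_LvS (j : ℕ) (e : V × V) : e ∈ Lv G B D q1 (j + 1) ↔ e ∈ Lv G B D q1 j ∧
    D ^ 2 ≤ q1 * ((Lv G B D q1 j).filter (fun f => A3 G B e.1 e.2 f.1 f.2)).card := by
  rw [Lv, Finset.mem_filter]

lemma Lv_sub (j : ℕ) : Lv G B D q1 (j + 1) ⊆ Lv G B D q1 j := fun e he =>
  ((mem_LvS G B D q1 j e).mp he).1

lemma Lv_sub0 (j : ℕ) : Lv G B D q1 j ⊆ Lv G B D q1 0 := by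
  induction j with
  | zero => exact fun _ h => h
  | succ j ih => exact (Lv_sub G B D q1 j).trans ih

lemma Lv_adj (j : ℕ) (e : V × V) (h : e ∈ Lv G B D q1 j) : G.Adj e.1 e.2 :=
  (mem_Lv0 G B D q1 e).mp (Lv_sub0 G B D q1 j h)

lemma Lv0_ge (hG : AR G D K) : Fintype.card V * D ≤ (Lv G B D q1 0).card := by
  have h1 : (Lv G B D q1 0).card = ∑ v : V, (nb G v).card := by
    rw [Lv, Finset.card_filter, ← Finset.univ_product_univ, Finset.sum_product]
    refine Finset.sum_congr rfl fun v _ => ?_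
    unfold nb
    rw [Finset.card_filter]
  rw [h1]
  calc Fintype.card V * D = ∑ _v : V, D := by
        rw [Finset.sum_const, Finset.card_univ, smul_eq_mul]
    _ ≤ _ := Finset.sum_le_sum fun v _ => hG.lo v

lemma Lv0_le (hG : AR G D K) : (Lv G B D q1 0).card ≤ Fintype.card V * (K * D) := by
  have h1 : (Lv G B D q1 0).card = ∑ v : V, (nb G v).card := by
    rw [Lv, Finset.card_filter, ← Finset.univ_product_univ, Finset.sum_product]
    refine Finset.sum_congr rfl fun v _ => ?_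
    unfold nb
    rw [Finset.card_filter]
  rw [h1]
  calc _ ≤ ∑ _v : V, (K * D) := Finset.sum_le_sum fun v _ => hG.hi v
    _ = _ := by rw [Finset.sum_const, Finset.card_univ, smul_eq_mul]

lemma Lv_tele (j : ℕ) : (Lv G B D q1 0).card ≤ (Lv G B D q1 j).card +
    ∑ i ∈ Finset.range j, (Lv G B D q1 i \ Lv G B D q1 (i + 1)).card := by
  induction j with
  | zero => simp
  | succ j ih =>
    rw [Finset.sum_range_succ]
    have := Finset.card_sdiff_add_card_inter (Lv G B D q1 j) (Lv G B D q1 (j + 1))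
    rw [Finset.inter_eq_right.mpr (Lv_sub G B D q1 j)] at this
    omega

/-- the first case: a dense host with few rich paths -/
lemma caseA (hG : AR G D K) (hD : 0 < D) (J q : ℕ) (hJ : 0 < J) (hV : 0 < Fintype.card V)
    (hK : 0 < K) (hq1 : q1 = K * (q + 1))
    (hA : 2 * (Lv G B D q1 J).card < Fintype.card V * D) :
    ∃ He : V → V → Prop, (∀ a b, He a b → G.Adj a b) ∧
      Fintype.card V * D ≤ (2 * J) * Pool.Agent.TH476.gc He ∧
      (RCh G B He 3).card * q ≤ Fintype.card V * D ^ 3 := by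
  obtain ⟨j, hj, hjc⟩ : ∃ j, j < J ∧ Fintype.card V * D ≤
      (2 * J) * (Lv G B D q1 j \ Lv G B D q1 (j + 1)).card := by
    by_contra hcon
    push Not at hcon
    have h0 := Lv0_ge G B D K q1 hG
    have h1 := Lv_tele G B D q1 J
    have h2 : (2 * J) * ∑ i ∈ Finset.range J, (Lv G B D q1 i \ Lv G B D q1 (i + 1)).card ≤
        J * (Fintype.card V * D) := by
      rw [Finset.mul_sum]
      calc _ ≤ ∑ _i ∈ Finset.range J, Fintype.card V * D :=
            Finset.sum_le_sum fun i hi => (hcon i (Finset.mem_range.mp hi)).le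
        _ = _ := by rw [Finset.sum_const, Finset.card_range, smul_eq_mul]
    have h3 : 2 * ∑ i ∈ Finset.range J, (Lv G B D q1 i \ Lv G B D q1 (i + 1)).card ≤
        Fintype.card V * D := by
      refine Nat.le_of_mul_le_mul_left ?_ hJ
      calc _ = (2 * J) * ∑ i ∈ Finset.range J, (Lv G B D q1 i \ Lv G B D q1 (i + 1)).card := by
            ring
        _ ≤ _ := h2
    omega
  obtain ⟨Hs, hHs⟩ : ∃ Hs, Hs = Lv G B D q1 j \ Lv G B D q1 (j + 1) := ⟨_, rfl⟩
  rw [← hHs] at hjc
  have hHs1 : ∀ e ∈ Hs, e ∈ Lv G B D q1 j ∧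
      q1 * ((Lv G B D q1 j).filter (fun f => A3 G B e.1 e.2 f.1 f.2)).card ≤ D ^ 2 := by
    intro e he
    rw [hHs, Finset.mem_sdiff, mem_LvS] at he
    refine ⟨he.1, ?_⟩
    by_contra hc
    exact he.2 ⟨he.1, by omega⟩
  obtain ⟨He, hHe⟩ : ∃ He : V → V → Prop, ∀ a b, He a b ↔ (a, b) ∈ Hs :=
    ⟨fun a b => (a, b) ∈ Hs, fun _ _ => Iff.rfl⟩
  refine ⟨He, fun a b h => Lv_adj G B D q1 j _ (hHs1 _ ((hHe a b).mp h)).1, ?_, ?_⟩
  · refine hjc.trans (Nat.mul_le_mul_left _ ?_)
    unfold Pool.Agent.TH476.gc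
    refine Finset.card_le_card fun e he => Finset.mem_filter.mpr ⟨Finset.mem_univ _, ?_⟩
    exact (hHe _ _).mpr he
  · have h1 : (RCh G B He 3).card ≤
        ∑ e ∈ Hs, ((Lv G B D q1 j).filter (fun f => A3 G B e.1 e.2 f.1 f.2)).card := by
      rw [← Finset.card_sigma]
      refine Finset.card_le_card_of_injOn
        (fun p : Fin (3 + 1) → V => (⟨(p 0, p 1), (p 2, p 3)⟩ : Σ _ : V × V, V × V)) ?_ ?_
      · intro p hp
        have hp' := Finset.mem_coe.mp hp
        unfold RCh at hp'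
        rw [Finset.mem_filter, mem_RCs3] at hp'
        obtain ⟨h1, h2⟩ := hp'
        have h3 : (p 0, p 1) ∈ Hs := (hHe _ _).mp ((h2 0 (by omega)).1 rfl)
        have h4 : (p 2, p 3) ∈ Hs := (hHe _ _).mp ((h2 2 (by omega)).1 rfl)
        refine Finset.mem_coe.mpr (Finset.mem_sigma.mpr ⟨h3, Finset.mem_filter.mpr
          ⟨(hHs1 _ h4).1, h1⟩⟩)
      · intro p _ p' _ he
        simp only [Sigma.mk.injEq, Prod.mk.injEq, heq_eq_eq] at he
        obtain ⟨⟨h0, h1⟩, h2, h3⟩ := he
        funext i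
        fin_cases i
        · exact h0
        · exact h1
        · exact h2
        · exact h3
    have h2 : (RCh G B He 3).card * q1 ≤ Hs.card * D ^ 2 := by
      rw [mul_comm]
      refine (Nat.mul_le_mul_left _ h1).trans ?_
      rw [Finset.mul_sum]
      calc _ ≤ ∑ _e ∈ Hs, D ^ 2 := Finset.sum_le_sum fun e he => (hHs1 e he).2
        _ = _ := by rw [Finset.sum_const, smul_eq_mul]
    have h3 : Hs.card ≤ Fintype.card V * (K * D) :=
      (Finset.card_le_card fun e he => Lv_sub0 G B D q1 j (hHs1 e he).1).trans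
        (Lv0_le G B D K q1 hG)
    have h4 : K * ((RCh G B He 3).card * q) ≤
        K * (Fintype.card V * D ^ 3) := by
      calc _ ≤ (RCh G B He 3).card * q1 := by
            rw [hq1]
            nlinarith [Nat.zero_le ((RCh G B He 3).card * K)]
        _ ≤ Hs.card * D ^ 2 := h2
        _ ≤ Fintype.card V * (K * D) * D ^ 2 := Nat.mul_le_mul_right _ h3
        _ = _ := by ring
    exact Nat.le_of_mul_le_mul_left h4 hK

/-- light paths of length 2 -/
lemma bnd2 (F0 : ℕ) (hB : BNd G B 3 F0) (x y : V) (hxy : x ≠ y) (hn : ¬ B 2 x y) :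
    (Finset.univ.filter (fun z => G.Adj x z ∧ G.Adj z y)).card ≤ F0 := by
  refine le_trans ?_ (hB 2 (by omega) (by omega) x y)
  refine Finset.card_le_card_of_injOn (fun z => (![x, z, y] : Fin (2 + 1) → V)) ?_ ?_
  · intro z hz
    obtain ⟨h1, h2⟩ := (Finset.mem_filter.mp (Finset.mem_coe.mp hz)).2
    refine Finset.mem_coe.mpr (Finset.mem_filter.mpr ⟨Finset.mem_univ _, ⟨?_, ?_, ?_⟩,
      fun _ => hn, rfl, rfl⟩)
    · intro i hi
      interval_cases i
      · exact h1
      · exact h2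
    · have key : ∀ i i', i < i' → i' ≤ 2 → ex 2 (![x, z, y] : Fin (2 + 1) → V) i ≠
          ex 2 (![x, z, y] : Fin (2 + 1) → V) i' := by
        intro i i' h3 h4
        interval_cases i' <;> interval_cases i
        · exact h1.ne
        · exact hxy
        · exact h2.ne
      intro i i' hi hi' h
      rcases lt_trichotomy i i' with h3 | h3 | h3
      · exact absurd h (key i i' h3 hi')
      · exact h3
      · exact absurd h.symm (key i' i h3 hi)
    · intro a b hab hb h3 h4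
      omega
  · intro z _ z' _ he
    exact congrFun he 1

/-- many good x for an element of a level -/
lemma good_x (hG : AR G D K) (hD : 0 < D) (hK : 0 < K) (j : ℕ) (s w : V)
    (h : (s, w) ∈ Lv G B D q1 (j + 1)) :
    D ≤ (2 * K * q1) * ((nb G w).filter (fun x => D ≤ (2 * K * q1) *
      (Finset.univ.filter (fun a => (x, a) ∈ Lv G B D q1 j ∧ A3 G B s w x a)).card)).card := by
  obtain ⟨g, hg⟩ : ∃ g : V → ℕ, g = fun x =>
    (Finset.univ.filter (fun a => (x, a) ∈ Lv G B D q1 j ∧ A3 G B s w x a)).card := ⟨_, rfl⟩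
  obtain ⟨X, hX⟩ : ∃ X, X = (nb G w).filter (fun x => D ≤ (2 * K * q1) * g x) := ⟨_, rfl⟩
  have hgoal : D ≤ (2 * K * q1) * X.card → D ≤ (2 * K * q1) * ((nb G w).filter (fun x => D ≤
      (2 * K * q1) * (Finset.univ.filter (fun a => (x, a) ∈ Lv G B D q1 j ∧
        A3 G B s w x a)).card)).card := by
    rw [hX, hg]
    exact fun h => h
  apply hgoal
  have h1 := ((mem_LvS G B D q1 j _).mp h).2
  have h2 : ((Lv G B D q1 j).filter (fun f => A3 G B s w f.1 f.2)).card ≤
      ∑ x ∈ nb G w, g x := by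
    rw [hg, ← Finset.card_sigma]
    refine Finset.card_le_card_of_injOn (fun f : V × V => (⟨f.1, f.2⟩ : Σ _ : V, V)) ?_ ?_
    · intro f hf
      obtain ⟨h3, h4⟩ := Finset.mem_filter.mp (Finset.mem_coe.mp hf)
      exact Finset.mem_coe.mpr (Finset.mem_sigma.mpr ⟨(mem_nb _ _ _).mpr h4.2.1,
        Finset.mem_filter.mpr ⟨Finset.mem_univ _, h3, h4⟩⟩)
    · intro f _ f' _ he
      simp only [Sigma.mk.injEq, heq_eq_eq] at he
      exact Prod.ext he.1 he.2
  have hgle : ∀ x, g x ≤ K * D := by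
    intro x
    rw [hg]
    refine (Finset.card_le_card fun a ha => ?_).trans (hG.hi x)
    rw [mem_nb]
    exact Lv_adj G B D q1 j _ (Finset.mem_filter.mp ha).2.1
  have h3 : ∀ x ∈ nb G w, (2 * K * q1) * g x ≤ D + if x ∈ X then (2 * K * q1) * (K * D) else 0 := by
    intro x hx
    by_cases hxX : x ∈ X
    · rw [if_pos hxX]
      have := Nat.mul_le_mul_left (2 * K * q1) (hgle x)
      omega
    · rw [if_neg hxX]
      have : ¬ (D ≤ (2 * K * q1) * g x) := fun hc => hxX (by
        rw [hX]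
        exact Finset.mem_filter.mpr ⟨hx, hc⟩)
      omega
  have h4 : (2 * K * q1) * ∑ x ∈ nb G w, g x ≤ K * D * D + X.card * ((2 * K * q1) * (K * D)) := by
    rw [Finset.mul_sum]
    refine (Finset.sum_le_sum h3).trans ?_
    rw [Finset.sum_add_distrib, Finset.sum_const, smul_eq_mul]
    refine Nat.add_le_add (Nat.mul_le_mul_right _ (hG.hi w)) ?_
    rw [← Finset.sum_filter, Finset.sum_const, smul_eq_mul]
    refine Nat.mul_le_mul_right _ (Finset.card_le_card fun x hx => (Finset.mem_filter.mp hx).2)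
  have h5 : 2 * K * D ^ 2 ≤ K * D * D + X.card * ((2 * K * q1) * (K * D)) := by
    calc 2 * K * D ^ 2 ≤ 2 * K * (q1 * ((Lv G B D q1 j).filter
          (fun f => A3 G B s w f.1 f.2)).card) := Nat.mul_le_mul_left _ h1
      _ ≤ 2 * K * (q1 * ∑ x ∈ nb G w, g x) :=
          Nat.mul_le_mul_left _ (Nat.mul_le_mul_left _ h2)
      _ = (2 * K * q1) * ∑ x ∈ nb G w, g x := by ring
      _ ≤ _ := h4
  have h6 : (K * D) * D ≤ (K * D) * ((2 * K * q1) * X.card) := by nlinarith
  exact Nat.le_of_mul_le_mul_left h6 (Nat.mul_pos hK hD)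

lemma outside (hG : AR G D K) [Nonempty V] (Z : Finset V) (hZ : Z.card < D) : ∃ v, v ∉ Z := by
  obtain ⟨v0⟩ := (inferInstance : Nonempty V)
  obtain ⟨v, _, hv⟩ := Finset.exists_mem_notMem_of_card_lt_card
    (lt_of_lt_of_le hZ (hG.lo v0))
  exact ⟨v, hv⟩

/-- common x for many s -/
lemma common_x (hG : AR G D K) (hD : 0 < D) (hK : 0 < K) (ζ : ℕ)
    (hD1 : 2 * (2 * K * q1) * (2 * ζ) < D) (j : ℕ) (w : V) (S Z : Finset V)
    (hS : ∀ s ∈ S, (s, w) ∈ Lv G B D q1 (j + 1)) (hSζ : S.card ≤ ζ) (hZζ : Z.card ≤ ζ)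
    (hne : S.Nonempty) :
    ∃ x ∈ nb G w, x ∉ Z ∪ S ∧ ∃ S' ⊆ S, S.card ≤ 2 * (2 * K * q1) * K * S'.card ∧ ∀ s ∈ S',
      D ≤ (2 * K * q1) * (Finset.univ.filter (fun a => (x, a) ∈ Lv G B D q1 j ∧
        A3 G B s w x a)).card := by
  obtain ⟨R, hR⟩ : ∃ R : V → V → Prop, ∀ s x, R s x ↔ D ≤ (2 * K * q1) *
    (Finset.univ.filter (fun a => (x, a) ∈ Lv G B D q1 j ∧ A3 G B s w x a)).card :=
    ⟨_, fun _ _ => Iff.rfl⟩
  obtain ⟨x, hx, hxY, hxS⟩ := common S (nb G w) (Z ∪ S) R D K
    (2 * K * q1) (2 * ζ) (fun s hs => by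
      refine (good_x G B D K q1 hG hD hK j s w (hS s hs)).trans (Nat.mul_le_mul_left _
        (Finset.card_le_card fun x hx => ?_))
      obtain ⟨h1, h2⟩ := Finset.mem_filter.mp hx
      exact Finset.mem_filter.mpr ⟨h1, (hR s x).mpr h2⟩) (hG.hi w)
    (by
      have := Finset.card_union_le Z S
      omega) hD1 hK hne
  exact ⟨x, hx, hxY, _, Finset.filter_subset _ _, hxS,
    fun s hs => (hR s x).mp (Finset.mem_filter.mp hs).2⟩

/-- legs -/
lemma leg (hG : AR G D K) (hD : 0 < D) (hK : 0 < K) (hq1 : 0 < q1) (ζ M y0 C : ℕ)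
    (hR : RichSp G B 3 M) (hD1 : 2 * (2 * K * q1) * (2 * ζ) < D) (hy0 : 6 * ζ + 2 ≤ y0)
    (hD2 : (2 * K * q1) * y0 < D) (hM : y0 < M) (hC : 2 * (2 * K * q1) * K ≤ C)
    (j : ℕ) (w : V) (S Z : Finset V) (n' : ℕ)
    (hS : ∀ s ∈ S, (s, w) ∈ Lv G B D q1 (j + 1)) (hn : C * n' ≤ S.card) (hSζ : S.card ≤ ζ)
    (hZζ : Z.card ≤ ζ) (hne : S.Nonempty) :
    ∃ ρ, ρ ∉ Z ∧ ρ ∉ S ∧ ∃ P : Fin n' → ℕ → V,
      (∀ l, P l 0 ∈ S ∧ P l (3 + 1) = ρ ∧ (∀ i, i ≤ 3 → G.Adj (P l i) (P l (i + 1))) ∧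
        ∀ i, 1 ≤ i → i ≤ 3 → P l i ∉ Z ∧ P l i ∉ S ∧ P l i ≠ ρ) ∧
      ∀ l l' i i', i ≤ 3 → i' ≤ 3 → P l i = P l' i' → l = l' ∧ i = i' := by
  obtain ⟨x, hx, hxY, S', hS'S, hS'c, hS'g⟩ :=
    common_x G B D K q1 hG hD hK ζ hD1 j w S Z hS hSζ hZζ hne
  rw [Finset.mem_union, not_or] at hxY
  have hCpos : 0 < C := lt_of_lt_of_le (by positivity) hC
  have hn' : n' ≤ S'.card := by
    refine Nat.le_of_mul_le_mul_left ?_ hCpos
    exact hn.trans (hS'c.trans (Nat.mul_le_mul_right _ hC))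
  have hnζ : n' ≤ ζ := hn'.trans ((Finset.card_le_card hS'S).trans hSζ)
  obtain ⟨Y0, hY0⟩ : ∃ Y0, Y0 = insert x (Z ∪ S) := ⟨_, rfl⟩
  have hY0c : Y0.card ≤ 2 * ζ + 1 := by
    rw [hY0]
    refine (Finset.card_insert_le _ _).trans ?_
    have := Finset.card_union_le Z S
    omega
  obtain ⟨P, hP1, hP2⟩ := greedy 3 S' Y0
    (fun p => p 4 = x ∧ ∀ i, i ≤ 3 → G.Adj (p i) (p (i + 1))) y0 (by
      intro s hs Y hYY hYc
      have h1 := hS'g s hs
      obtain ⟨a, ha, haY⟩ := Finset.exists_mem_notMem_of_card_lt_card (s := Y)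
        (t := Finset.univ.filter (fun a => (x, a) ∈ Lv G B D q1 j ∧ A3 G B s w x a)) (by
          by_contra hc
          push Not at hc
          have := Nat.mul_le_mul_left (2 * K * q1) (hc.trans hYc)
          omega)
      obtain ⟨ha1, ha2⟩ := (Finset.mem_filter.mp ha).2
      obtain ⟨p, hp0, hp3, hpP, hpY⟩ := avoid G B 3 M s a (hR s a ha2.2.2.2.2.2.2.2.2) Y (by omega)
      refine ⟨fun i => if i ≤ 3 then p i else x, ?_, ⟨?_, ?_⟩, ?_, ?_⟩
      · show (if 0 ≤ 3 then p 0 else x) = s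
        rw [if_pos (by omega), hp0]
      · show (if 4 ≤ 3 then p 4 else x) = x
        rw [if_neg (by omega)]
      · intro i hi
        show G.Adj (if i ≤ 3 then p i else x) (if i + 1 ≤ 3 then p (i + 1) else x)
        rw [if_pos hi]
        by_cases hi3 : i + 1 ≤ 3
        · rw [if_pos hi3]
          exact hpP.1 i (by omega)
        · rw [if_neg hi3]
          have : i = 3 := by omega
          rw [this, hp3]
          exact ha2.2.2.1.symm
      · intro i h1 h2
        show (if i ≤ 3 then p i else x) ∉ Y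
        rw [if_pos h2]
        by_cases hi3 : i < 3
        · exact hpY i h1 hi3
        · have : i = 3 := by omega
          rw [this, hp3]
          exact haY
      · intro i i' hi hi' he
        have he' : (if i ≤ 3 then p i else x) = (if i' ≤ 3 then p i' else x) := he
        rw [if_pos hi, if_pos hi'] at he'
        exact hpP.2.1 i i' hi hi' he')
    (by
      rw [hY0]
      exact (hS'S.trans Finset.subset_union_right).trans (Finset.subset_insert _ _))
    n' hn' (by omega)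
  refine ⟨x, hxY.1, hxY.2, P, fun l => ⟨hS'S (hP1 l).1, (hP1 l).2.1.1, (hP1 l).2.1.2, ?_⟩, hP2⟩
  intro i h1 h2
  have h3 := (hP1 l).2.2 i h1 h2
  rw [hY0, Finset.mem_insert, Finset.mem_union, not_or, not_or] at h3
  exact ⟨h3.2.1, h3.2.2, h3.1⟩

omit [Fintype V] in
/-- averaging over the new root -/
lemma avg {α β : Type} [Fintype β] (S' : Finset α) (Ws : α → β → ℕ) (W : β → ℕ) (Y : Finset β)
    (e X b y : ℕ) (h1 : ∀ s ∈ S', 2 * X ≤ e * ∑ r : β, Ws s r) (h2 : ∑ r : β, W r ≤ X)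
    (h3 : ∀ s r, r ∈ Y → Ws s r ≤ b) (h4 : Y.card ≤ y) (h5 : e * b * y < X)
    (hS : S'.Nonempty) (hle : ∀ s r, Ws s r ≤ W r) :
    ∃ r, r ∉ Y ∧ 0 < W r ∧
      S'.card ≤ 2 * e * (S'.filter (fun s => W r ≤ 2 * e * Ws s r)).card := by
  by_contra hcon
  push Not at hcon
  have hSp := hS.card_pos
  have k1 : ∀ r, e * ∑ s ∈ S', Ws s r ≤ S'.card * W r + if r ∈ Y then S'.card * (e * b) else 0 := by
    intro r
    by_cases hrY : r ∈ Y
    · rw [if_pos hrY]
      have : e * ∑ s ∈ S', Ws s r ≤ S'.card * (e * b) := by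
        calc _ ≤ e * ∑ _s ∈ S', b :=
              Nat.mul_le_mul_left _ (Finset.sum_le_sum fun s _ => h3 s r hrY)
          _ = _ := by rw [Finset.sum_const, smul_eq_mul]; ring
      omega
    · rw [if_neg hrY, add_zero]
      rcases Nat.eq_zero_or_pos (W r) with h0 | h0
      · have : ∑ s ∈ S', Ws s r = 0 := Finset.sum_eq_zero fun s _ => by
          have := hle s r
          omega
        rw [this, mul_zero]
        exact Nat.zero_le _
      · have h6 := hcon r hrY h0
        have h7 : ∀ s ∈ S', 2 * e * Ws s r ≤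
            W r + if W r ≤ 2 * e * Ws s r then 2 * e * W r else 0 := by
          intro s _
          by_cases hc : W r ≤ 2 * e * Ws s r
          · rw [if_pos hc]
            have := Nat.mul_le_mul_left (2 * e) (hle s r)
            omega
          · rw [if_neg hc]
            omega
        have h8 : 2 * e * ∑ s ∈ S', Ws s r ≤ S'.card * W r +
            (S'.filter (fun s => W r ≤ 2 * e * Ws s r)).card * (2 * e * W r) := by
          rw [Finset.mul_sum]
          refine (Finset.sum_le_sum h7).trans ?_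
          rw [Finset.sum_add_distrib, Finset.sum_const, smul_eq_mul, ← Finset.sum_filter,
            Finset.sum_const, smul_eq_mul]
        have h9 : (S'.filter (fun s => W r ≤ 2 * e * Ws s r)).card * (2 * e * W r) ≤
            S'.card * W r := by
          calc _ = (2 * e * (S'.filter (fun s => W r ≤ 2 * e * Ws s r)).card) * W r := by ring
            _ ≤ _ := Nat.mul_le_mul_right _ h6.le
        have h10 : 2 * (e * ∑ s ∈ S', Ws s r) ≤ 2 * (S'.card * W r) := by
          calc _ = 2 * e * ∑ s ∈ S', Ws s r := by ring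
            _ ≤ _ := h8
            _ ≤ _ := by omega
        omega
  have k2 : ∑ r : β, (e * ∑ s ∈ S', Ws s r) ≤ S'.card * X + y * (S'.card * (e * b)) := by
    refine (Finset.sum_le_sum fun r _ => k1 r).trans ?_
    rw [Finset.sum_add_distrib, ← Finset.mul_sum, ← Finset.sum_filter, Finset.sum_const,
      smul_eq_mul]
    refine Nat.add_le_add (Nat.mul_le_mul_left _ h2) (Nat.mul_le_mul_right _ (le_trans ?_ h4))
    exact Finset.card_le_card fun x hx => (Finset.mem_filter.mp hx).2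
  have k3 : S'.card * (2 * X) ≤ ∑ r : β, (e * ∑ s ∈ S', Ws s r) := by
    have : ∑ r : β, (e * ∑ s ∈ S', Ws s r) = ∑ s ∈ S', (e * ∑ r : β, Ws s r) := by
      simp only [Finset.mul_sum]
      exact Finset.sum_comm
    rw [this]
    calc S'.card * (2 * X) = ∑ _s ∈ S', 2 * X := by rw [Finset.sum_const, smul_eq_mul]
      _ ≤ _ := Finset.sum_le_sum h1
  have k4 : S'.card * (2 * X) ≤ S'.card * (X + e * b * y) := by
    calc _ ≤ _ := k3.trans k2
      _ = _ := by ring
  have k5 := Nat.le_of_mul_le_mul_left k4 hSp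
  omega

lemma cnt_a (F0 : ℕ) (hB : BNd G B 3 F0) (x s1 r : V) :
    (Finset.univ.filter (fun a => A3 G B x a s1 r)).card ≤ F0 := by
  rcases Finset.eq_empty_or_nonempty (Finset.univ.filter (fun a => A3 G B x a s1 r)) with h | ⟨a, ha⟩
  · rw [h]
    exact Nat.zero_le _
  · have h1 := (Finset.mem_filter.mp ha).2
    refine le_trans (Finset.card_le_card fun a' ha' => ?_)
      (bnd2 G B F0 hB x s1 h1.2.2.2.1 h1.2.2.2.2.2.2.1)
    have h2 := (Finset.mem_filter.mp ha').2
    exact Finset.mem_filter.mpr ⟨Finset.mem_univ _, h2.1, h2.2.1⟩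

lemma cnt_s (F0 : ℕ) (hB : BNd G B 3 F0) (x a r : V) :
    (Finset.univ.filter (fun s1 => A3 G B x a s1 r)).card ≤ F0 := by
  rcases Finset.eq_empty_or_nonempty (Finset.univ.filter (fun s1 => A3 G B x a s1 r)) with
    h | ⟨s1, hs1⟩
  · rw [h]
    exact Nat.zero_le _
  · have h1 := (Finset.mem_filter.mp hs1).2
    refine le_trans (Finset.card_le_card fun s' hs' => ?_)
      (bnd2 G B F0 hB a r h1.2.2.2.2.2.1 h1.2.2.2.2.2.2.2.1)
    have h2 := (Finset.mem_filter.mp hs').2
    exact Finset.mem_filter.mpr ⟨Finset.mem_univ _, h2.2.1, h2.2.2.1⟩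

/-- the new root -/
lemma root_r (hG : AR G D K) (F0 ζ M c e : ℕ)
    (hR : RichSp G B 3 M) (hB : BNd G B 3 F0)
    (he : e = 2 * K ^ 3 * c * q1)
    (hD3 : e * (K * D * F0) * (2 * ζ) < (K * D) ^ 3) (j : ℕ) (w x : V) (S' Y : Finset V)
    (hS' : ∀ s ∈ S', D ≤ c * (Finset.univ.filter (fun a => (x, a) ∈ Lv G B D q1 (j + 1) ∧
      A3 G B s w x a)).card)
    (hY : Y.card ≤ 2 * ζ) (hne : S'.Nonempty) :
    ∃ r, r ∉ Y ∧ ∃ S'' ⊆ S', S'.card ≤ 2 * e * S''.card ∧ ∀ s ∈ S'', M ≤ 2 * e *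
      (Finset.univ.filter (fun p : V × V => ((x, p.1) ∈ Lv G B D q1 (j + 1) ∧
        A3 G B s w x p.1) ∧ A3 G B x p.1 p.2 r ∧ (p.2, r) ∈ Lv G B D q1 j)).card := by
  obtain ⟨Ws, hWs⟩ : ∃ Ws : V → V → ℕ, ∀ s r, Ws s r =
    (Finset.univ.filter (fun p : V × V => ((x, p.1) ∈ Lv G B D q1 (j + 1) ∧
        A3 G B s w x p.1) ∧ A3 G B x p.1 p.2 r ∧ (p.2, r) ∈ Lv G B D q1 j)).card :=
    ⟨_, fun _ _ => rfl⟩
  obtain ⟨W, hW⟩ : ∃ W : V → ℕ, ∀ r, W r =
    (Finset.univ.filter (fun p : V × V => A3 G B x p.1 p.2 r)).card := ⟨_, fun _ => rfl⟩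
  have hle : ∀ s r, Ws s r ≤ W r := by
    intro s r
    rw [hWs, hW]
    refine Finset.card_le_card fun p hp => ?_
    exact Finset.mem_filter.mpr ⟨Finset.mem_univ _, (Finset.mem_filter.mp hp).2.2.1⟩
  have h1 : ∀ s ∈ S', 2 * (K * D) ^ 3 ≤ e * ∑ r : V, Ws s r := by
    intro s hs
    obtain ⟨A, hA⟩ : ∃ A, A = Finset.univ.filter (fun a => (x, a) ∈ Lv G B D q1 (j + 1) ∧
      A3 G B s w x a) := ⟨_, rfl⟩
    have g0 := hS' s hs
    rw [← hA] at g0
    have g1 : ∑ a ∈ A, ((Lv G B D q1 j).filter (fun f => A3 G B x a f.1 f.2)).card ≤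
        ∑ r : V, Ws s r := by
      simp only [hWs]
      rw [← Finset.card_sigma, ← Finset.card_sigma]
      refine Finset.card_le_card_of_injOn
        (fun t : (Σ _ : V, V × V) => (⟨t.2.2, (t.1, t.2.1)⟩ : Σ _ : V, V × V)) ?_ ?_
      · intro t ht
        obtain ⟨t1, t2⟩ := Finset.mem_sigma.mp (Finset.mem_coe.mp ht)
        obtain ⟨t3, t4⟩ := Finset.mem_filter.mp t2
        rw [hA] at t1
        refine Finset.mem_coe.mpr (Finset.mem_sigma.mpr ⟨Finset.mem_univ _,
          Finset.mem_filter.mpr ⟨Finset.mem_univ _, (Finset.mem_filter.mp t1).2, t4, t3⟩⟩)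
      · rintro ⟨a, f1, f2⟩ _ ⟨a', f1', f2'⟩ _ heq
        simp only [Sigma.mk.injEq, Prod.mk.injEq, heq_eq_eq] at heq
        obtain ⟨h1, h2, h3⟩ := heq
        subst h1
        subst h2
        subst h3
        rfl
    have g2 : A.card * D ^ 2 ≤ q1 * ∑ r : V, Ws s r := by
      refine le_trans ?_ (Nat.mul_le_mul_left _ g1)
      rw [Finset.mul_sum]
      calc A.card * D ^ 2 = ∑ _a ∈ A, D ^ 2 := by rw [Finset.sum_const, smul_eq_mul]
        _ ≤ _ := Finset.sum_le_sum fun a ha => by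
          rw [hA] at ha
          exact ((mem_LvS G B D q1 j _).mp (Finset.mem_filter.mp ha).2.1).2
    calc 2 * (K * D) ^ 3 = 2 * K ^ 3 * (D * D ^ 2) := by ring
      _ ≤ 2 * K ^ 3 * (c * A.card * D ^ 2) :=
          Nat.mul_le_mul_left _ (Nat.mul_le_mul_right _ g0)
      _ = 2 * K ^ 3 * (c * (A.card * D ^ 2)) := by ring
      _ ≤ 2 * K ^ 3 * (c * (q1 * ∑ r : V, Ws s r)) :=
          Nat.mul_le_mul_left _ (Nat.mul_le_mul_left _ g2)
      _ = _ := by rw [he]; ring
  have h2 : ∑ r : V, W r ≤ (K * D) ^ 3 := by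
    simp only [hW]
    have g1 : ∑ r : V, (Finset.univ.filter (fun p : V × V => A3 G B x p.1 p.2 r)).card ≤
        ∑ a ∈ nb G x, ∑ s1 ∈ nb G a, (nb G s1).card := by
      simp only [← Finset.card_sigma]
      refine Finset.card_le_card_of_injOn (fun t : (Σ _ : V, V × V) =>
        (⟨t.2.1, ⟨t.2.2, t.1⟩⟩ : Σ _ : V, Σ _ : V, V)) ?_ ?_
      · intro t ht
        obtain ⟨_, t2⟩ := Finset.mem_sigma.mp (Finset.mem_coe.mp ht)
        have t3 := (Finset.mem_filter.mp t2).2
        exact Finset.mem_coe.mpr (Finset.mem_sigma.mpr ⟨(mem_nb _ _ _).mpr t3.1,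
          Finset.mem_sigma.mpr ⟨(mem_nb _ _ _).mpr t3.2.1, (mem_nb _ _ _).mpr t3.2.2.1⟩⟩)
      · rintro ⟨r, a, s1⟩ _ ⟨r', a', s1'⟩ _ heq
        simp only [Sigma.mk.injEq, heq_eq_eq] at heq
        obtain ⟨h1, h2, h3⟩ := heq
        subst h1
        subst h2
        subst h3
        rfl
    refine g1.trans ?_
    calc _ ≤ ∑ a ∈ nb G x, ∑ _s1 ∈ nb G a, K * D :=
          Finset.sum_le_sum fun a _ => Finset.sum_le_sum fun s1 _ => hG.hi s1
      _ ≤ ∑ _a ∈ nb G x, (K * D) * (K * D) := by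
          refine Finset.sum_le_sum fun a _ => ?_
          rw [Finset.sum_const, smul_eq_mul]
          exact Nat.mul_le_mul_right _ (hG.hi a)
      _ ≤ (K * D) * ((K * D) * (K * D)) := by
          rw [Finset.sum_const, smul_eq_mul]
          exact Nat.mul_le_mul_right _ (hG.hi x)
      _ = _ := by ring
  have h3 : ∀ r, W r ≤ K * D * F0 := by
    intro r
    rw [hW]
    have g1 : (Finset.univ.filter (fun p : V × V => A3 G B x p.1 p.2 r)).card ≤
        ∑ s1 ∈ nb G r, (Finset.univ.filter (fun a => A3 G B x a s1 r)).card := by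
      rw [← Finset.card_sigma]
      refine Finset.card_le_card_of_injOn (fun t : V × V => (⟨t.2, t.1⟩ : Σ _ : V, V)) ?_ ?_
      · intro t ht
        have t3 := (Finset.mem_filter.mp (Finset.mem_coe.mp ht)).2
        exact Finset.mem_coe.mpr (Finset.mem_sigma.mpr ⟨(mem_nb _ _ _).mpr t3.2.2.1.symm,
          Finset.mem_filter.mpr ⟨Finset.mem_univ _, t3⟩⟩)
      · rintro ⟨a, s1⟩ _ ⟨a', s1'⟩ _ heq
        simp only [Sigma.mk.injEq, heq_eq_eq] at heq
        obtain ⟨h1, h2⟩ := heq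
        subst h1
        subst h2
        rfl
    refine g1.trans ?_
    calc _ ≤ ∑ _s1 ∈ nb G r, F0 := Finset.sum_le_sum fun s1 _ => cnt_a G B F0 hB x s1 r
      _ ≤ _ := by
        rw [Finset.sum_const, smul_eq_mul]
        exact Nat.mul_le_mul_right _ (hG.hi r)
  obtain ⟨r, hrY, hr0, hrc⟩ := avg S' Ws W Y e ((K * D) ^ 3) (K * D * F0) (2 * ζ) h1 h2
    (fun s r _ => (hle s r).trans (h3 r)) hY hD3 hne hle
  have hM : M ≤ W r := by
    have g1 : 0 < (Finset.univ.filter (fun p : V × V => A3 G B x p.1 p.2 r)).card := by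
      rw [← hW]
      exact hr0
    obtain ⟨p, hp⟩ := Finset.card_pos.mp g1
    have g2 := (Finset.mem_filter.mp hp).2.2.2.2.2.2.2.2.2
    obtain ⟨P, hP1, hP2⟩ := hR x r g2
    rw [hW]
    have g3 : (Finset.univ : Finset (Fin M)).card ≤
        (Finset.univ.filter (fun p : V × V => A3 G B x p.1 p.2 r)).card := by
      refine Finset.card_le_card_of_injOn (fun l => (P l 1, P l 2)) ?_ ?_
      · intro l _
        obtain ⟨q1, q2, q3⟩ := hP1 l
        rw [pthV3, q1, q2] at q3
        obtain ⟨k1, k2, k3, k4, k5, k6, k7, k8⟩ := q3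
        exact Finset.mem_coe.mpr (Finset.mem_filter.mpr ⟨Finset.mem_univ _,
          ⟨k1, k2, k3, k4, k5, k6, k7, k8, g2⟩⟩)
      · intro l _ l' _ heq
        by_contra hne
        exact hP2 l l' 1 1 hne (by omega) (by omega) (by omega) (by omega) (Prod.mk.inj heq).1
    rwa [Finset.card_univ, Fintype.card_fin] at g3
  refine ⟨r, hrY, _, Finset.filter_subset _ _, hrc, fun s hs => ?_⟩
  have := (Finset.mem_filter.mp hs).2
  rw [hWs] at this
  exact hM.trans this

/-- core moves -/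
lemma core (hG : AR G D K) (hD : 0 < D) (hK : 0 < K) (hq1 : 0 < q1) (F0 ζ M y0 C e : ℕ)
    (hR : RichSp G B 3 M) (hB : BNd G B 3 F0) (hD1 : 2 * (2 * K * q1) * (2 * ζ) < D)
    (hy0 : 6 * ζ + 2 ≤ y0) (hM0 : y0 + 1 < M)
    (he : e = 2 * K ^ 3 * (2 * K * q1) * q1)
    (hD3 : e * (K * D * F0) * (2 * ζ) < (K * D) ^ 3) (hM : 2 * e * (2 * (y0 * F0)) < M)
    (hC : 2 * (2 * K * q1) * K * (2 * e) ≤ C)
    (j : ℕ) (w : V) (S Z : Finset V) (n' : ℕ)
    (hS : ∀ s ∈ S, (s, w) ∈ Lv G B D q1 (j + 2)) (hn : C * n' ≤ S.card) (hSζ : S.card ≤ ζ)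
    (hZζ : Z.card ≤ ζ) (hne : S.Nonempty) :
    ∃ w', w' ∉ Z ∧ w' ∉ S ∧ ∃ P : Fin n' → ℕ → V,
      (∀ l, P l 0 ∈ S ∧ (P l (3 + 1), w') ∈ Lv G B D q1 j ∧
        (∀ i, i ≤ 3 → G.Adj (P l i) (P l (i + 1))) ∧
        ∀ i, 1 ≤ i → i ≤ 3 + 1 → P l i ∉ Z ∧ P l i ∉ S ∧ P l i ≠ w') ∧
      ∀ l l' i i', i ≤ 3 + 1 → i' ≤ 3 + 1 → P l i = P l' i' → l = l' ∧ i = i' := by
  obtain ⟨x, hx, hxY, S', hS'S, hS'c, hS'g⟩ :=
    common_x G B D K q1 hG hD hK ζ hD1 (j + 1) w S Z hS hSζ hZζ hne
  have hS'ne : S'.Nonempty := by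
    rw [← Finset.card_pos]
    by_contra h0
    have h1 : S'.card = 0 := by omega
    rw [h1, mul_zero] at hS'c
    have := hne.card_pos
    omega
  obtain ⟨r, hrY, S'', hS''S', hS''c, hS''M⟩ := root_r G B D K q1 hG F0 ζ M (2 * K * q1) e hR hB
    he hD3 j w x S' (Z ∪ S) hS'g (by
      have := Finset.card_union_le Z S
      omega) hS'ne
  rw [Finset.mem_union, not_or] at hrY
  have hepos : 0 < e := by
    rw [he]
    positivity
  have hCpos : 0 < C := lt_of_lt_of_le (by positivity) hC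
  have hn' : n' ≤ S''.card := by
    refine Nat.le_of_mul_le_mul_left ?_ hCpos
    calc C * n' ≤ S.card := hn
      _ ≤ 2 * (2 * K * q1) * K * S'.card := hS'c
      _ ≤ 2 * (2 * K * q1) * K * (2 * e * S''.card) := Nat.mul_le_mul_left _ hS''c
      _ = 2 * (2 * K * q1) * K * (2 * e) * S''.card := by ring
      _ ≤ _ := Nat.mul_le_mul_right _ hC
  have hS''S : S'' ⊆ S := hS''S'.trans hS'S
  have hnζ : n' ≤ ζ := hn'.trans ((Finset.card_le_card hS''S).trans hSζ)
  obtain ⟨Y0, hY0⟩ : ∃ Y0, Y0 = insert r (Z ∪ S) := ⟨_, rfl⟩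
  have hY0c : Y0.card ≤ 2 * ζ + 1 := by
    rw [hY0]
    refine (Finset.card_insert_le _ _).trans ?_
    have := Finset.card_union_le Z S
    omega
  have hSY0 : S ⊆ Y0 := by
    rw [hY0]
    exact Finset.subset_union_right.trans (Finset.subset_insert _ _)
  obtain ⟨P, hP1, hP2⟩ := greedy 4 S'' Y0
    (fun p => (p 4, r) ∈ Lv G B D q1 j ∧ ∀ i, i ≤ 3 → G.Adj (p i) (p (i + 1))) y0 (by
      intro s hs Y hYY hYc
      have h1 := hS''M s hs
      obtain ⟨f, ⟨⟨hf1, hf2⟩, hf3, hf4⟩, hf5, hf6⟩ : ∃ f : V × V,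
          (((x, f.1) ∈ Lv G B D q1 (j + 1) ∧ A3 G B s w x f.1) ∧
          A3 G B x f.1 f.2 r ∧ (f.2, r) ∈ Lv G B D q1 j) ∧ f.1 ∉ Y ∧ f.2 ∉ Y := by
        by_contra hcon
        push Not at hcon
        have h2 : (Finset.univ.filter (fun p : V × V => ((x, p.1) ∈ Lv G B D q1 (j + 1) ∧
            A3 G B s w x p.1) ∧ A3 G B x p.1 p.2 r ∧ (p.2, r) ∈ Lv G B D q1 j)).card ≤
            ((Y.sigma (fun a => Finset.univ.filter (fun s1 => A3 G B x a s1 r))).image
              (fun t => (t.1, t.2)) ∪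
            (Y.sigma (fun s1 => Finset.univ.filter (fun a => A3 G B x a s1 r))).image
              (fun t => (t.2, t.1))).card := by
          refine Finset.card_le_card fun p hp => ?_
          have h3 := (Finset.mem_filter.mp hp).2
          by_cases hpY : p.1 ∈ Y
          · refine Finset.mem_union_left _ (Finset.mem_image.mpr ⟨⟨p.1, p.2⟩,
              Finset.mem_sigma.mpr ⟨hpY, Finset.mem_filter.mpr ⟨Finset.mem_univ _, h3.2.1⟩⟩, rfl⟩)
          · refine Finset.mem_union_right _ (Finset.mem_image.mpr ⟨⟨p.2, p.1⟩,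
              Finset.mem_sigma.mpr ⟨hcon p h3 hpY,
                Finset.mem_filter.mpr ⟨Finset.mem_univ _, h3.2.1⟩⟩, rfl⟩)
        have h4 : (Y.sigma (fun a => Finset.univ.filter (fun s1 => A3 G B x a s1 r))).card ≤
            y0 * F0 := by
          rw [Finset.card_sigma]
          calc _ ≤ ∑ _a ∈ Y, F0 := Finset.sum_le_sum fun a _ => cnt_s G B F0 hB x a r
            _ = Y.card * F0 := by rw [Finset.sum_const, smul_eq_mul]
            _ ≤ _ := Nat.mul_le_mul_right _ hYc
        have h5 : (Y.sigma (fun s1 => Finset.univ.filter (fun a => A3 G B x a s1 r))).card ≤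
            y0 * F0 := by
          rw [Finset.card_sigma]
          calc _ ≤ ∑ _a ∈ Y, F0 := Finset.sum_le_sum fun s1 _ => cnt_a G B F0 hB x s1 r
            _ = Y.card * F0 := by rw [Finset.sum_const, smul_eq_mul]
            _ ≤ _ := Nat.mul_le_mul_right _ hYc
        have h6 := (h2.trans (Finset.card_union_le _ _)).trans
          (Nat.add_le_add (Finset.card_image_le.trans h4) (Finset.card_image_le.trans h5))
        have h7 := Nat.mul_le_mul_left (2 * e) h6
        have h8 : 2 * e * (y0 * F0 + y0 * F0) = 2 * e * (2 * (y0 * F0)) := by ring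
        omega
      obtain ⟨p, hp0, hp3, hpP, hpY⟩ := avoid G B 3 M s f.1
        (hR s f.1 hf2.2.2.2.2.2.2.2.2) (insert f.2 Y) (by
          have := Finset.card_insert_le f.2 Y
          omega)
      have hpY' : ∀ i, 1 ≤ i → i < 3 → p i ≠ f.2 ∧ p i ∉ Y := by
        intro i h1 h2
        have := hpY i h1 h2
        rw [Finset.mem_insert, not_or] at this
        exact this
      have hf2s : f.2 ≠ s := fun h => hf6 (h ▸ hYY (hSY0 (hS''S hs)))
      have hne4 : ∀ i, i ≤ 3 → p i ≠ f.2 := by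
        intro i hi
        rcases Nat.eq_zero_or_pos i with h0 | h0
        · rw [h0, hp0]
          exact hf2s.symm
        · by_cases hi3 : i < 3
          · exact (hpY' i h0 hi3).1
          · have : i = 3 := by omega
            rw [this, hp3]
            exact hf3.2.1.ne
      refine ⟨fun i => if i ≤ 3 then p i else f.2, ?_, ⟨?_, ?_⟩, ?_, ?_⟩
      · show (if 0 ≤ 3 then p 0 else f.2) = s
        rw [if_pos (by omega), hp0]
      · show ((if 4 ≤ 3 then p 4 else f.2), r) ∈ Lv G B D q1 j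
        rw [if_neg (by omega)]
        exact hf4
      · intro i hi
        show G.Adj (if i ≤ 3 then p i else f.2) (if i + 1 ≤ 3 then p (i + 1) else f.2)
        rw [if_pos hi]
        by_cases hi3 : i + 1 ≤ 3
        · rw [if_pos hi3]
          exact hpP.1 i (by omega)
        · rw [if_neg hi3]
          have : i = 3 := by omega
          rw [this, hp3]
          exact hf3.2.1
      · intro i h1 h2
        show (if i ≤ 3 then p i else f.2) ∉ Y
        by_cases hi3 : i ≤ 3
        · rw [if_pos hi3]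
          by_cases hi2 : i < 3
          · exact (hpY' i h1 hi2).2
          · have : i = 3 := by omega
            rw [this, hp3]
            exact hf5
        · rw [if_neg hi3]
          exact hf6
      · intro i i' hi hi' heq
        have heq' : (if i ≤ 3 then p i else f.2) = (if i' ≤ 3 then p i' else f.2) := heq
        by_cases h3 : i ≤ 3
        · by_cases h3' : i' ≤ 3
          · rw [if_pos h3, if_pos h3'] at heq'
            exact hpP.2.1 i i' h3 h3' heq'
          · rw [if_pos h3, if_neg h3'] at heq'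
            exact absurd heq' (hne4 i h3)
        · by_cases h3' : i' ≤ 3
          · rw [if_neg h3, if_pos h3'] at heq'
            exact absurd heq'.symm (hne4 i' h3')
          · omega)
    (hS''S.trans hSY0) n' hn' (by omega)
  refine ⟨r, hrY.1, hrY.2, P, fun l => ⟨hS''S (hP1 l).1, (hP1 l).2.1.1, (hP1 l).2.1.2, ?_⟩, hP2⟩
  intro i h1 h2
  have h3 := (hP1 l).2.2 i h1 h2
  rw [hY0, Finset.mem_insert, Finset.mem_union, not_or, not_or] at h3
  exact ⟨h3.2.1, h3.2.2, h3.1⟩

/-- a large start -/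
lemma start_w (hG : AR G D K) (J : ℕ) (hA : Fintype.card V * D ≤ 2 * (Lv G B D q1 J).card)
    [Nonempty V] : ∃ w, D ≤ 2 * (Finset.univ.filter (fun s => (s, w) ∈ Lv G B D q1 J)).card := by
  by_contra hcon
  push Not at hcon
  have h1 : (Lv G B D q1 J).card ≤
      ∑ w : V, (Finset.univ.filter (fun s => (s, w) ∈ Lv G B D q1 J)).card := by
    rw [← Finset.card_sigma]
    refine Finset.card_le_card_of_injOn (fun t : V × V => (⟨t.2, t.1⟩ : Σ _ : V, V)) ?_ ?_
    · intro t ht
      exact Finset.mem_coe.mpr (Finset.mem_sigma.mpr ⟨Finset.mem_univ _,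
        Finset.mem_filter.mpr ⟨Finset.mem_univ _, Finset.mem_coe.mp ht⟩⟩)
    · rintro ⟨a, s1⟩ _ ⟨a', s1'⟩ _ heq
      simp only [Sigma.mk.injEq, heq_eq_eq] at heq
      obtain ⟨h1, h2⟩ := heq
      subst h1
      subst h2
      rfl
  have h2 : 2 * (Lv G B D q1 J).card < Fintype.card V * D := by
    calc 2 * (Lv G B D q1 J).card ≤ 2 * ∑ w : V,
          (Finset.univ.filter (fun s => (s, w) ∈ Lv G B D q1 J)).card := Nat.mul_le_mul_left _ h1
      _ = ∑ w : V, 2 * (Finset.univ.filter (fun s => (s, w) ∈ Lv G B D q1 J)).card := by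
          rw [Finset.mul_sum]
      _ < ∑ _w : V, D := Finset.sum_lt_sum_of_nonempty Finset.univ_nonempty fun w _ => hcon w
      _ = _ := by rw [Finset.sum_const, Finset.card_univ, smul_eq_mul]
  omega

end levels

/-- the case k = 3, l = 3 -/
theorem mv33 : S_MV3 := by
  intro K n hK
  refine ⟨2 * (2 * n + 1), by omega, fun q => ?_⟩
  obtain ⟨q1, hq1⟩ : ∃ q1, q1 = K * (q + 1) := ⟨_, rfl⟩
  have hq1pos : 0 < q1 := by rw [hq1]; positivity
  obtain ⟨e, he⟩ : ∃ e, e = 2 * K ^ 3 * (2 * K * q1) * q1 := ⟨_, rfl⟩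
  have hepos : 0 < e := by rw [he]; positivity
  obtain ⟨C, hC⟩ : ∃ C, C = 2 * (2 * K * q1) * K * (2 * e) := ⟨_, rfl⟩
  have hCpos : 0 < C := by rw [hC]; positivity
  have hC1 : 2 * (2 * K * q1) * K ≤ C := by
    rw [hC]
    exact Nat.le_mul_of_pos_right _ (by omega)
  refine ⟨C, hCpos, fun F0 ζ => ?_⟩
  obtain ⟨y0, hy0⟩ : ∃ y0, y0 = 6 * ζ + 2 := ⟨_, rfl⟩
  refine ⟨2 * e * (2 * (y0 * F0)) + y0 + 2, 2 * (2 * K * q1) * (2 * ζ) + (2 * K * q1) * y0 +
    e * F0 * (2 * ζ) + 2 * ζ + 1, ?_⟩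
  intro V _ _ G D B hG hDD hBS hR hB
  have hD : 0 < D := by omega
  have hD1 : 2 * (2 * K * q1) * (2 * ζ) < D := by omega
  have hD2 : (2 * K * q1) * y0 < D := by omega
  have hζD : 2 * ζ < D := by omega
  have hD3 : e * (K * D * F0) * (2 * ζ) < (K * D) ^ 3 := by
    have h1 : e * F0 * (2 * ζ) < D := by omega
    calc e * (K * D * F0) * (2 * ζ) = (K * D) * (e * F0 * (2 * ζ)) := by ring
      _ < (K * D) * D := Nat.mul_lt_mul_of_pos_left h1 (Nat.mul_pos hK hD)
      _ ≤ (K * D) * (K * D * (K * D)) := by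
          refine Nat.mul_le_mul_left _ ?_
          have h2 : D ≤ K * D := Nat.le_mul_of_pos_left _ hK
          calc D = D * 1 := by ring
            _ ≤ (K * D) * (K * D) := Nat.mul_le_mul h2 (by omega)
      _ = _ := by ring
  by_cases hA : 2 * (Lv G B D q1 (2 * n + 1)).card < Fintype.card V * D
  · right
    exact caseA G B D K q1 hG hD (2 * n + 1) q (by omega) Fintype.card_pos hK hq1 hA
  · left
    push Not at hA
    refine ⟨ℕ, fun j w s => (s, w) ∈ Lv G B D q1 j, fun m j => 2 * m + 1 ≤ j, ?_, ?_⟩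
    · constructor
      · intro a w s h
        exact (Lv_adj G B D q1 a _ h).symm
      · intro m a ha w S Z n' hS hwZ hn hSζ hZζ
        rcases Finset.eq_empty_or_nonempty S with h0 | h0
        · have hn0 : n' = 0 := by
            rw [h0, Finset.card_empty] at hn
            rcases Nat.eq_zero_or_pos n' with h | h
            · exact h
            · have := Nat.mul_pos hCpos h
              omega
          subst hn0
          obtain ⟨v, hv⟩ := outside G D K hG Z (by omega)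
          refine ⟨v, hv, by rw [h0]; exact Finset.notMem_empty _, fun l => l.elim0,
            fun l => l.elim0, fun l => l.elim0⟩
        · obtain ⟨j, rfl⟩ : ∃ j, a = j + 1 := ⟨a - 1, by omega⟩
          exact leg G B D K q1 hG hD hK hq1pos ζ _ y0 C hR hD1 (by omega) hD2 (by omega) hC1 j w S
            Z n' hS hn hSζ hZζ h0
      · intro m a ha w S Z n' hS hwZ hn hSζ hZζ
        obtain ⟨j, rfl⟩ : ∃ j, a = j + 2 := ⟨a - 2, by omega⟩
        refine ⟨j, by omega, ?_⟩
        rcases Finset.eq_empty_or_nonempty S with h0 | h0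
        · have hn0 : n' = 0 := by
            rw [h0, Finset.card_empty] at hn
            rcases Nat.eq_zero_or_pos n' with h | h
            · exact h
            · have := Nat.mul_pos hCpos h
              omega
          subst hn0
          obtain ⟨v, hv⟩ := outside G D K hG Z (by omega)
          refine ⟨v, hv, by rw [h0]; exact Finset.notMem_empty _, fun l => l.elim0,
            fun l => l.elim0, fun l => l.elim0⟩
        · exact core G B D K q1 hG hD hK hq1pos F0 ζ _ y0 C e hR hB hD1 (by omega) (by omega) he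
            hD3 (by omega) hC.ge j w S Z n' hS hn hSζ hZζ h0
    · intro n0 hn0
      obtain ⟨w, hw⟩ := start_w G B D K q1 hG (2 * n + 1) hA
      obtain ⟨S, hS1, hS2⟩ := Finset.exists_subset_card_eq (n := n0)
        (s := Finset.univ.filter (fun s => (s, w) ∈ Lv G B D q1 (2 * n + 1))) (by omega)
      refine ⟨2 * n + 1, w, S, le_rfl, hS2, fun hwS => ?_,
        fun s hs => (Finset.mem_filter.mp (hS1 hs)).2⟩
      exact (Lv_adj G B D q1 _ _ (Finset.mem_filter.mp (hS1 hwS)).2).ne rfl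

end Pool.Agent.TH422.KK
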